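import Mathlib

/-!
# Even intersection forms and spin 4-manifolds with arbitrary fundamental group

By Donaldson and Rokhlin and the classification of indefinite forms, Q1 asks which even forms
`2p E₈ ⊕ q H` (`p, q ≥ 0`) are realised, up to orientation, by a closed simply connected spin
4-manifold `M`; then `|σ(M)| = 16 p` and `χ(M) = 16 p + 2 q + 2`.  The 11/8-conjecture is `q ≥ 3 p`.

We show that bounds `q ≥ c p` for simply connected manifolds are equivalent to exact bounds for closed
spin 4-manifolds with arbitrary fundamental group, in which the only correction is the rank gradient of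
the fundamental group, and also to the corresponding asymptotic bounds for one single group.
-/

set_option autoImplicit false

namespace Pool.Agent.Results.MP_cb9bff_gt.AllFundamentalGroups

/-- The rank gradient of a group: the infimum of `(d - 1) / [G : H]` over all subgroups `H` of finite
index of `G` and all `d` such that `H` is generated by `d` elements. -/
noncomputable def rankGradient (G : Type) [Group G] : ℝ :=
  sInf {x : ℝ | ∃ (H : Subgroup G) (S : Finset G), H.index ≠ 0 ∧ Subgroup.closure (S : Set G) = H ∧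
    x = ((S.card : ℝ) - 1) / H.index}

/-- The closed connected smooth spin 4-manifolds, with their fundamental groups, Euler
characteristics and signatures, and the standard facts on them which are used. -/
structure SpinManifolds where
  /-- the closed connected smooth spin 4-manifolds -/
  Mfd : Type
  /-- fundamental group -/
  Pi1 : Mfd → Type
  grp : ∀ M, Group (Pi1 M)
  /-- Euler characteristic -/
  chi : Mfd → ℤ
  /-- signature -/
  sign : Mfd → ℤ
  /-- fundamental groups are finitely generated -/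
  fg : ∀ M, ∃ S : Finset (Pi1 M), Subgroup.closure (S : Set (Pi1 M)) = ⊤
  /-- connected sum with a simply connected manifold -/
  sum : ∀ M N, Subsingleton (Pi1 N) → ∃ P, Nonempty (Pi1 P ≃* Pi1 M) ∧
    chi P = chi M + chi N - 2 ∧ sign P = sign M + sign N
  /-- finite coverings -/
  cover : ∀ M (H : Subgroup (Pi1 M)), H.index ≠ 0 → ∃ N, Nonempty (Pi1 N ≃* H) ∧
    chi N = H.index * chi M ∧ sign N = H.index * sign M
  /-- surgery on disjoint embedded loops which represent generators of the fundamental group -/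
  surgery : ∀ M (S : Finset (Pi1 M)), Subgroup.closure (S : Set (Pi1 M)) = ⊤ →
    ∃ N, Subsingleton (Pi1 N) ∧ chi N = chi M + 2 * S.card ∧ sign N = sign M
  /-- the intersection form of a simply connected spin manifold is `± (2p E₈) ⊕ q H`
  (Rokhlin, Donaldson, classification of indefinite forms) -/
  form : ∀ M, Subsingleton (Pi1 M) → ∃ p q : ℕ, |sign M| = 16 * p ∧ chi M = 16 * p + 2 * q + 2
  /-- there is a simply connected one, for instance the 4-sphere -/
  sphere : ∃ M, Subsingleton (Pi1 M)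

namespace SpinManifolds

variable (T : SpinManifolds)

instance (M : T.Mfd) : Group (T.Pi1 M) := T.grp M

/-- The form `2p E₈ ⊕ q H` or its negative is realised by a simply connected manifold. -/
def Realised (p q : ℕ) : Prop :=
  ∃ M : T.Mfd, Subsingleton (T.Pi1 M) ∧ |T.sign M| = 16 * p ∧ T.chi M = 16 * p + 2 * q + 2

end SpinManifolds

/-- connected sums with many copies of a simply connected manifold -/
lemma sum_many (T : SpinManifolds) (M N : T.Mfd) (hN : Subsingleton (T.Pi1 N)) (r : ℕ) :
    ∃ P : T.Mfd, Nonempty (T.Pi1 P ≃* T.Pi1 M) ∧ T.chi P = T.chi M + r * (T.chi N - 2) ∧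
      T.sign P = T.sign M + r * T.sign N := by
  induction r with
  | zero => exact ⟨M, ⟨MulEquiv.refl _⟩, by simp, by simp⟩
  | succ r ih =>
    obtain ⟨P, ⟨e⟩, h1, h2⟩ := ih
    obtain ⟨Q, ⟨f⟩, h3, h4⟩ := T.sum P N hN
    refine ⟨Q, ⟨f.trans e⟩, ?_, ?_⟩
    · rw [h3, h1]; push_cast; ring
    · rw [h4, h2]; push_cast; ring

/-- generators of a subgroup give generators of an isomorphic group -/
lemma gens {G K : Type} [Group G] [Group K] (H : Subgroup G) (e : K ≃* H) (S : Finset G)
    (hS : Subgroup.closure (S : Set G) = H) :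
    ∃ S' : Finset K, Subgroup.closure (S' : Set K) = ⊤ ∧ S'.card ≤ S.card := by
  classical
  have hmem : ∀ x ∈ S, x ∈ H := fun x hx => by
    rw [← hS]; exact Subgroup.subset_closure hx
  refine ⟨S.attach.image (fun x => e.symm ⟨x.1, hmem x.1 x.2⟩), ?_, ?_⟩
  · rw [eq_top_iff]
    intro k _
    have hk : ((e k : H) : G) ∈ Subgroup.closure (S : Set G) := by rw [hS]; exact (e k).2
    have key : ∀ g : G, g ∈ Subgroup.closure (S : Set G) → ∀ hg : g ∈ H, e.symm ⟨g, hg⟩ ∈
        Subgroup.closure
          ((S.attach.image (fun x => e.symm ⟨x.1, hmem x.1 x.2⟩) : Finset K) : Set K) := by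
      intro g hg
      induction hg using Subgroup.closure_induction with
      | mem x hx =>
        intro hg
        apply Subgroup.subset_closure
        simp only [Finset.coe_image, Set.mem_image, Finset.mem_coe, Finset.mem_attach, true_and,
          Subtype.exists]
        exact ⟨x, hx, rfl⟩
      | one =>
        intro hg
        have : e.symm ⟨(1 : G), hg⟩ = 1 := by
          have : (⟨(1 : G), hg⟩ : H) = 1 := rfl
          rw [this, map_one]
        rw [this]
        exact one_mem _
      | mul x y hx hy ihx ihy =>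
        intro hg
        have hx' : x ∈ H := by rw [← hS]; exact hx
        have hy' : y ∈ H := by rw [← hS]; exact hy
        have : e.symm ⟨x * y, hg⟩ = e.symm ⟨x, hx'⟩ * e.symm ⟨y, hy'⟩ := by
          rw [← map_mul]; rfl
        rw [this]
        exact mul_mem (ihx hx') (ihy hy')
      | inv x hx ihx =>
        intro hg
        have hx' : x ∈ H := by rw [← hS]; exact hx
        have : e.symm ⟨x⁻¹, hg⟩ = (e.symm ⟨x, hx'⟩)⁻¹ := by
          rw [← map_inv]; rfl
        rw [this]
        exact inv_mem (ihx hx')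
    have := key _ hk (e k).2
    simpa using this
  · exact Finset.card_image_le.trans (by simp)

/-- the inequality for one subgroup of finite index -/
lemma main_ineq (T : SpinManifolds) (c : ℝ) (h : ∀ p q : ℕ, T.Realised p q → c * p ≤ q)
    (M : T.Mfd) (H : Subgroup (T.Pi1 M)) (S : Finset (T.Pi1 M)) (hH : H.index ≠ 0)
    (hS : Subgroup.closure (S : Set (T.Pi1 M)) = H) :
    (8 + c) * |(T.sign M : ℝ)| ≤ 8 * T.chi M + 16 * (((S.card : ℝ) - 1) / H.index) := by
  obtain ⟨N, ⟨e⟩, h1, h2⟩ := T.cover M H hH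
  obtain ⟨S', hS', hc⟩ := gens H e S hS
  obtain ⟨N', hN', h3, h4⟩ := T.surgery N S' hS'
  obtain ⟨p, q, h5, h6⟩ := T.form N' hN'
  have h7 := h p q ⟨N', hN', h5, h6⟩
  have hi : (0 : ℝ) < H.index := by exact_mod_cast Nat.pos_of_ne_zero hH
  have h5' : (H.index : ℝ) * |(T.sign M : ℝ)| = 16 * p := by
    have : |T.sign N'| = H.index * |T.sign M| := by
      rw [h4, h2, abs_mul, Nat.abs_cast]
    rw [h5] at this
    have h' : ((16 * p : ℤ) : ℝ) = ((H.index * |T.sign M| : ℤ) : ℝ) := by rw [this]
    push_cast at h'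
    linarith
  have h6' : (H.index : ℝ) * T.chi M + 2 * S'.card = 16 * p + 2 * q + 2 := by
    have : (H.index : ℤ) * T.chi M + 2 * S'.card = 16 * p + 2 * q + 2 := by
      rw [← h6, h3, h1]
    exact_mod_cast this
  have hc' : (S'.card : ℝ) ≤ S.card := by exact_mod_cast hc
  have h8 : H.index * ((8 + c) * |(T.sign M : ℝ)|) ≤
      H.index * (8 * T.chi M + 16 * (((S.card : ℝ) - 1) / H.index)) := by
    have e1 : H.index * ((8 + c) * |(T.sign M : ℝ)|) = (8 + c) * (16 * p) := by
      rw [← h5']; ring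
    have e2 : H.index * (8 * T.chi M + 16 * (((S.card : ℝ) - 1) / H.index)) =
        8 * (H.index * T.chi M) + 16 * ((S.card : ℝ) - 1) := by
      field_simp
    rw [e1, e2]
    nlinarith
  exact le_of_mul_le_mul_left h8 hi

/-- **Main theorem.**  For a real number `c` the following are equivalent:
(1) `q ≥ c p` whenever `± (2p E₈) ⊕ q H` is the intersection form of a simply connected manifold;
(2) `(8 + c) |σ(M)| ≤ 8 (χ(M) + 2 RG(π₁ M))` for all `M`, `RG` the rank gradient;
(3) for every `M₀` there is `C` with `(8 + c) |σ(M)| ≤ 8 χ(M) + C` for all `M` with `π₁ M ≅ π₁ M₀`;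
(4) for some `M₀` and every `ε > 0` there is `C` with `(8 + c - ε) |σ(M)| ≤ 8 χ(M) + C` for all `M`
with `π₁ M ≅ π₁ M₀`. -/
theorem result (T : SpinManifolds) (c : ℝ) : List.TFAE [
    ∀ p q : ℕ, T.Realised p q → c * p ≤ q,
    ∀ M : T.Mfd, (8 + c) * |(T.sign M : ℝ)| ≤ 8 * (T.chi M + 2 * rankGradient (T.Pi1 M)),
    ∀ M₀ : T.Mfd, ∃ C : ℝ, ∀ M : T.Mfd, Nonempty (T.Pi1 M ≃* T.Pi1 M₀) →
      (8 + c) * |(T.sign M : ℝ)| ≤ 8 * T.chi M + C,
    ∃ M₀ : T.Mfd, ∀ ε : ℝ, 0 < ε → ∃ C : ℝ, ∀ M : T.Mfd, Nonempty (T.Pi1 M ≃* T.Pi1 M₀) →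
      (8 + c - ε) * |(T.sign M : ℝ)| ≤ 8 * T.chi M + C] := by
  tfae_have 1 → 2 := by
    intro h M
    have h1 : ((8 + c) * |(T.sign M : ℝ)| - 8 * T.chi M) / 16 ≤ rankGradient (T.Pi1 M) := by
      unfold rankGradient
      apply le_csInf
      · obtain ⟨S, hS⟩ := T.fg M
        exact ⟨_, ⊤, S, by simp, hS, rfl⟩
      · rintro x ⟨H, S, hH, hS, rfl⟩
        have := main_ineq T c h M H S hH hS
        linarith
    linarith
  tfae_have 2 → 3 := by
    intro h M₀
    obtain ⟨S, hS⟩ := T.fg M₀
    refine ⟨16 * ((S.card : ℝ) - 1), fun M ⟨e⟩ => ?_⟩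
    have h1 := h M
    obtain ⟨S', hS', hc⟩ := gens ⊤ (e.trans Subgroup.topEquiv.symm) S hS
    have hc' : (S'.card : ℝ) ≤ S.card := by exact_mod_cast hc
    have h2 : rankGradient (T.Pi1 M) ≤ (S'.card : ℝ) - 1 := by
      unfold rankGradient
      apply csInf_le
      · refine ⟨-1, ?_⟩
        rintro x ⟨H, R, hH, hR, rfl⟩
        have hi : (1 : ℝ) ≤ H.index := by exact_mod_cast Nat.one_le_iff_ne_zero.2 hH
        rw [le_div_iff₀ (by linarith)]
        have : (0 : ℝ) ≤ R.card := by positivity
        linarith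
      · exact ⟨⊤, S', by simp, hS', by simp⟩
    linarith
  tfae_have 3 → 4 := by
    intro h
    obtain ⟨M₀, _⟩ := T.sphere
    obtain ⟨C, hC⟩ := h M₀
    refine ⟨M₀, fun ε hε => ⟨C, fun M hM => ?_⟩⟩
    have h1 := hC M hM
    have : 0 ≤ ε * |(T.sign M : ℝ)| := by positivity
    linarith
  tfae_have 4 → 1 := by
    rintro ⟨M₀, h⟩ p q ⟨X, hX, h1, h2⟩
    by_contra hlt
    push Not at hlt
    have hp : (0 : ℝ) ≤ p := by positivity
    have hq : (0 : ℝ) ≤ q := by positivity
    have hp0 : (0 : ℝ) < p := by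
      rcases hp.lt_or_eq with h0 | h0
      · exact h0
      · rw [← h0] at hlt
        linarith
    -- choose `ε`
    obtain ⟨ε, hε, hε2⟩ : ∃ ε : ℝ, 0 < ε ∧ q < (c - ε) * p := by
      refine ⟨(c * p - q) / (2 * p), div_pos (by linarith) (by linarith), ?_⟩
      have : (c - (c * p - q) / (2 * p)) * p = c * p - (c * p - q) / 2 := by
        field_simp
      rw [this]
      linarith
    obtain ⟨C, hC⟩ := h ε hε
    have hk : 0 < 8 + c - ε := by
      by_contra hneg
      push Not at hneg
      nlinarith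
    set δ : ℝ := 16 * ((c - ε) * p - q) with hδ
    have hδ0 : 0 < δ := by rw [hδ]; linarith
    obtain ⟨r, hr⟩ := exists_nat_gt
      ((8 * T.chi M₀ + C + (8 + c - ε) * |(T.sign M₀ : ℝ)|) / δ)
    obtain ⟨P, hP, h3, h4⟩ := sum_many T M₀ X hX r
    have h5 := hC P hP
    have h3' : (T.chi P : ℝ) = T.chi M₀ + r * (16 * p + 2 * q) := by
      rw [h3, h2]; push_cast; ring
    have h1' : |(T.sign X : ℝ)| = 16 * p := by exact_mod_cast h1
    have h6 : r * (16 * (p : ℝ)) - |(T.sign M₀ : ℝ)| ≤ |(T.sign P : ℝ)| := by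
      have e1 : (r : ℝ) * T.sign X = T.sign P - T.sign M₀ := by
        rw [h4]; push_cast; ring
      have e2 : |(r : ℝ) * T.sign X| = r * (16 * p) := by
        rw [abs_mul, h1', Nat.abs_cast]
      have e3 := abs_sub (T.sign P : ℝ) (T.sign M₀ : ℝ)
      rw [← e1, e2] at e3
      linarith
    have h7 : (8 + c - ε) * (r * (16 * (p : ℝ)) - |(T.sign M₀ : ℝ)|) ≤
        (8 + c - ε) * |(T.sign P : ℝ)| := mul_le_mul_of_nonneg_left h6 hk.le
    rw [div_lt_iff₀ hδ0] at hr
    rw [h3'] at h5
    have h8 : (8 + c - ε) * (r * (16 * (p : ℝ)) - |(T.sign M₀ : ℝ)|) =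
        r * δ + 8 * (r * (16 * p + 2 * q)) - (8 + c - ε) * |(T.sign M₀ : ℝ)| := by
      rw [hδ]; ring
    linarith
  tfae_finish

end Pool.Agent.Results.MP_cb9bff_gt.AllFundamentalGroups
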