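import Mathlib

/-!
# The slope of the even intersection forms and surfaces in connected sums of projective planes

By Donaldson and Rokhlin and the classification of indefinite forms, Q1 asks which even forms
`2p E₈ ⊕ q H` (`p, q ≥ 0`) are realised, up to orientation, by a closed simply connected smooth
4-manifold. The 11/8-conjecture is `q ≥ 3 p`; Furuta proved `q ≥ 2 p + 1` for `p ≥ 1`.

We show that a bound `q ≥ c p`, `c > 2`, for all smooth spin 4-manifolds is equivalent to a question
on the standard manifolds `X = a CP² # (a + 16 p) (-CP²)`: it holds if and only if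
`g ≥ c p - a + 1` whenever the class
`3 (e_1 + ⋯ + e_2p) + e_(2p+1) + ⋯ + e_a + f_1 + ⋯ + f_(a+16p)`
of `X` is represented by a smoothly embedded surface of genus `g` with simply connected complement,
and also if and only if this holds asymptotically for spheres.

Proof: surgery on the surface gives a spin manifold. Conversely, for a spin manifold `M` there is a
number `k` such that, for all `n`, the connected sum of `n` copies of `M`, `k` copies of `S² × S²`
and `CP² # -CP²` is a connected sum of copies of `CP²` and `-CP²` (see `multiples`); it contains a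
characteristic sphere of square zero, and its class is unique up to diffeomorphism. For large `n`
the `k` stabilisations do not matter.
-/

set_option autoImplicit false

namespace Pool.Agent.Results.MP_cb9bff_gt.CharacteristicSurfaces

/-- All entries are odd and the sum of the squares of the first ones is that of the others: the
class `∑ x i e_i + ∑ y j f_j` of `a CP² # b (-CP²)` is characteristic and has square zero. -/
def IsChar {a b : ℕ} (x : Fin a → ℤ) (y : Fin b → ℤ) : Prop :=
  (∀ i, Odd (x i)) ∧ (∀ j, Odd (y j)) ∧ ∑ i, x i ^ 2 = ∑ j, y j ^ 2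

/-- The class `∑ x i e_i + ∑ y j f_j` is not divisible. -/
def IsPrim {a b : ℕ} (x : Fin a → ℤ) (y : Fin b → ℤ) : Prop :=
  ∀ d : ℤ, (∀ i, d ∣ x i) → (∀ j, d ∣ y j) → IsUnit d

/-- The closed connected simply connected oriented smooth 4-manifolds up to diffeomorphism, with
connected sum, and the standard facts on them which are used. -/
structure FourManifolds where
  /-- diffeomorphism classes -/
  Mfd : Type
  /-- connected sum; the neutral element is the 4-sphere -/
  [acm : AddCommMonoid Mfd]
  /-- second Betti number -/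
  b2 : Mfd →+ ℕ
  /-- signature -/
  sign : Mfd →+ ℤ
  /-- the intersection form is even -/
  Spin : Mfd → Prop
  /-- the complex projective plane -/
  cp : Mfd
  /-- the complex projective plane with the other orientation -/
  cpbar : Mfd
  /-- the product of two 2-spheres -/
  s2s2 : Mfd
  /-- change of the orientation -/
  rev : Mfd → Mfd
  /-- the class `∑ x i e_i + ∑ y j f_j` of `a CP² # b (-CP²)` is represented by a smoothly embedded
  closed connected oriented surface of genus `g` with simply connected complement -/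
  Rep : (g a b : ℕ) → (Fin a → ℤ) → (Fin b → ℤ) → Prop
  spin_add : ∀ M N, Spin (M + N) ↔ Spin M ∧ Spin N
  b2_cp : b2 cp = 1
  sign_cp : sign cp = 1
  spin_cp : ¬ Spin cp
  b2_cpbar : b2 cpbar = 1
  sign_cpbar : sign cpbar = -1
  b2_s2s2 : b2 s2s2 = 2
  sign_s2s2 : sign s2s2 = 0
  spin_s2s2 : Spin s2s2
  b2_rev : ∀ M, b2 (rev M) = b2 M
  sign_rev : ∀ M, sign (rev M) = - sign M
  spin_rev : ∀ M, Spin M → Spin (rev M)
  /-- `S² × S² # CP² # -CP²` is `2 CP² # 2 (-CP²)` -/
  dissolve : s2s2 + (cp + cpbar) = (cp + cpbar) + (cp + cpbar)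
  /-- Wall: manifolds with isomorphic forms become diffeomorphic after connected sum with copies of
  `S² × S²` (the form is determined by rank, signature and parity: Serre, Donaldson) -/
  wall : ∀ M N, b2 M = b2 N → sign M = sign N → (Spin M ↔ Spin N) →
    ∃ k : ℕ, M + k • s2s2 = N + k • s2s2
  /-- Wall: if `a, b ≥ 2` all primitive characteristic classes of square zero are equivalent under
  diffeomorphisms of `a CP² # b (-CP²)` -/
  transitive : ∀ (g a b : ℕ) (x x' : Fin a → ℤ) (y y' : Fin b → ℤ), 2 ≤ a → 2 ≤ b →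
    IsChar x y → IsChar x' y' → IsPrim x' y' → Rep g a b x y → Rep g a b x' y'
  /-- if `M` is spin and `M # CP² # -CP²` is diffeomorphic to `a CP² # b (-CP²)`, the fibre of the
  sphere bundle `CP² # -CP² → S²` is a characteristic sphere of square zero with simply connected
  complement -/
  fibre : ∀ (M : Mfd) (a b : ℕ), Spin M → M + (cp + cpbar) = a • cp + b • cpbar →
    ∃ (x : Fin a → ℤ) (y : Fin b → ℤ), IsChar x y ∧ Rep 0 a b x y
  /-- surgery (replace `F × D²` by `H × S¹`, `H` a handlebody) on a characteristic surface `F` of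
  square zero, genus `g` and Arf invariant zero with simply connected complement gives a simply
  connected spin manifold; the Arf invariant is `(a - b) / 8` modulo 2 (Rokhlin) -/
  surgery : ∀ (g a b : ℕ) (x : Fin a → ℤ) (y : Fin b → ℤ), (16 : ℤ) ∣ a - b → IsChar x y →
    Rep g a b x y → ∃ M, Spin M ∧ b2 M + 2 = a + b + 2 * g ∧ sign M = a - b

attribute [instance] FourManifolds.acm

/-- `2p E₈ ⊕ q H` or its negative is the intersection form of a closed simply connected smooth
4-manifold. -/
def FourManifolds.Realised (T : FourManifolds) (p q : ℕ) : Prop :=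
  ∃ M : T.Mfd, T.Spin M ∧ |T.sign M| = 16 * p ∧ T.b2 M = 16 * p + 2 * q

/-- The class `3 (e_1 + ⋯ + e_2p) + e_(2p+1) + ⋯ + e_a + f_1 + ⋯ + f_(a+16p)` of
`a CP² # (a + 16 p) (-CP²)` is represented by a smoothly embedded surface of genus `g` with simply
connected complement. -/
def FourManifolds.Surface (T : FourManifolds) (g a p : ℕ) : Prop :=
  T.Rep g a (a + 16 * p) (fun i => if (i : ℕ) < 2 * p then 3 else 1) (fun _ => 1)

lemma isChar_std {a p : ℕ} (h : 2 * p ≤ a) :
    IsChar (fun i : Fin a => if (i : ℕ) < 2 * p then (3 : ℤ) else 1)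
      (fun _ : Fin (a + 16 * p) => 1) := by
  refine ⟨fun i => ?_, fun _ => odd_one, ?_⟩
  · dsimp only
    split_ifs
    · exact ⟨1, by norm_num⟩
    · exact odd_one
  · obtain ⟨r, rfl⟩ := Nat.exists_eq_add_of_le h
    rw [Fin.sum_univ_eq_sum_range (fun i : ℕ => (if i < 2 * p then (3 : ℤ) else 1) ^ 2),
      Finset.sum_range_add]
    have e1 : ∑ x ∈ Finset.range (2 * p), (if x < 2 * p then (3 : ℤ) else 1) ^ 2 = 9 * (2 * p) := by
      rw [Finset.sum_congr rfl (g := fun _ => (9 : ℤ))]
      · simp; ring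
      · intro x hx
        rw [if_pos (Finset.mem_range.1 hx)]; norm_num
    have e2 : ∑ x ∈ Finset.range r, (if 2 * p + x < 2 * p then (3 : ℤ) else 1) ^ 2 = r := by
      rw [Finset.sum_congr rfl (g := fun _ => (1 : ℤ))]
      · simp
      · intro x _
        rw [if_neg (by omega)]; norm_num
    rw [e1, e2]
    simp
    ring

lemma isPrim_std {a p : ℕ} (h : 1 ≤ a) :
    IsPrim (fun i : Fin a => if (i : ℕ) < 2 * p then (3 : ℤ) else 1)
      (fun _ : Fin (a + 16 * p) => 1) :=
  fun _ _ h2 => isUnit_of_dvd_one (h2 ⟨0, by omega⟩)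

variable (T : FourManifolds)

lemma spin_zero : T.Spin 0 := by
  have h := (T.spin_add T.s2s2 0).1 (by rw [add_zero]; exact T.spin_s2s2)
  exact h.2

lemma spin_nsmul {M : T.Mfd} (h : T.Spin M) (n : ℕ) : T.Spin (n • M) := by
  induction n with
  | zero => rw [zero_smul]; exact spin_zero T
  | succ n ih => rw [succ_nsmul]; exact (T.spin_add _ _).2 ⟨ih, h⟩

lemma not_spin_left (M : T.Mfd) : ¬ T.Spin (M + (T.cp + T.cpbar)) := fun h =>
  T.spin_cp ((T.spin_add _ _).1 ((T.spin_add _ _).1 h).2).1

lemma not_spin_right (n m : ℕ) : ¬ T.Spin ((n + 1) • T.cp + m • T.cpbar) := fun h => by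
  have h1 := ((T.spin_add _ _).1 h).1
  rw [succ_nsmul] at h1
  exact T.spin_cp ((T.spin_add _ _).1 h1).2

lemma absorb (k : ℕ) : k • T.s2s2 + (T.cp + T.cpbar) = (k + 1) • (T.cp + T.cpbar) := by
  induction k with
  | zero => simp
  | succ k ih =>
    rw [succ_nsmul, add_assoc, T.dissolve, ← add_assoc, ih, succ_nsmul _ (k + 1)]

/-- The multiples of a spin manifold dissolve after a bounded number of stabilisations. -/
lemma multiples {M : T.Mfd} {p q k : ℕ}
    (hk : M + (T.cp + T.cpbar) + k • T.s2s2 =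
      (q + 1) • T.cp + (q + 16 * p + 1) • T.cpbar + k • T.s2s2) (n : ℕ) :
    n • M + (k • T.s2s2 + (T.cp + T.cpbar)) =
      (n * q + k + 1) • T.cp + (n * (q + 16 * p) + k + 1) • T.cpbar := by
  have h0 : ∀ j : ℕ, j • T.s2s2 + (T.cp + T.cpbar) = (j + 1) • T.cp + (j + 1) • T.cpbar := by
    intro j
    rw [absorb, nsmul_add]
  have h1 : M + (k • T.s2s2 + (T.cp + T.cpbar)) =
      (q • T.cp + (q + 16 * p) • T.cpbar) + (k • T.s2s2 + (T.cp + T.cpbar)) := by
    calc M + (k • T.s2s2 + (T.cp + T.cpbar)) = M + (T.cp + T.cpbar) + k • T.s2s2 := by abel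
      _ = (q + 1) • T.cp + (q + 16 * p + 1) • T.cpbar + k • T.s2s2 := hk
      _ = (q • T.cp + (q + 16 * p) • T.cpbar) + (k • T.s2s2 + (T.cp + T.cpbar)) := by
        rw [succ_nsmul, succ_nsmul _ (q + 16 * p)]; abel
  induction n with
  | zero => rw [zero_smul, zero_add, h0]; simp
  | succ n ih =>
    calc (n + 1) • M + (k • T.s2s2 + (T.cp + T.cpbar))
        = n • M + (M + (k • T.s2s2 + (T.cp + T.cpbar))) := by rw [succ_nsmul]; abel
      _ = (n • M + (k • T.s2s2 + (T.cp + T.cpbar))) + (q • T.cp + (q + 16 * p) • T.cpbar) := by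
        rw [h1]; abel
      _ = ((n * q + k + 1) • T.cp + (n * (q + 16 * p) + k + 1) • T.cpbar) +
          (q • T.cp + (q + 16 * p) • T.cpbar) := by rw [ih]
      _ = (((n + 1) * q + k + 1) • T.cp + ((n + 1) * (q + 16 * p) + k + 1) • T.cpbar) := by
        have e1 : (n + 1) * q + k + 1 = (n * q + k + 1) + q := by ring
        have e2 : (n + 1) * (q + 16 * p) + k + 1 = (n * (q + 16 * p) + k + 1) + (q + 16 * p) := by
          ring
        rw [e1, e2, add_nsmul _ (n * q + k + 1), add_nsmul _ (n * (q + 16 * p) + k + 1)]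
        abel

/-- Spheres in connected sums of projective planes from a spin manifold. -/
lemma spheres {p q : ℕ} (h : T.Realised p q) :
    ∃ k : ℕ, ∀ n j : ℕ, 2 * (n * p) ≤ n * q + k + j + 2 →
      T.Surface 0 (n * q + k + j + 2) (n * p) := by
  obtain ⟨M, hM, hs, hb⟩ : ∃ M : T.Mfd, T.Spin M ∧ T.sign M = -(16 * p) ∧
      T.b2 M = 16 * p + 2 * q := by
    obtain ⟨M, hM, hs, hb⟩ := h
    rcases abs_choice (T.sign M) with h1 | h1
    · exact ⟨T.rev M, T.spin_rev M hM, by rw [T.sign_rev]; omega, by rw [T.b2_rev]; exact hb⟩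
    · exact ⟨M, hM, by omega, hb⟩
  have hk : ∃ k : ℕ, M + (T.cp + T.cpbar) + k • T.s2s2 =
      (q + 1) • T.cp + (q + 16 * p + 1) • T.cpbar + k • T.s2s2 := by
    apply T.wall
    · simp only [map_add, map_nsmul, T.b2_cp, T.b2_cpbar, hb, smul_eq_mul]
      ring
    · simp only [map_add, map_nsmul, T.sign_cp, T.sign_cpbar, hs, nsmul_eq_mul]
      push_cast
      ring
    · exact iff_of_false (not_spin_left T M) (not_spin_right T q _)
  obtain ⟨k, hk⟩ := hk
  refine ⟨k, fun n j hnj => ?_⟩
  have h1 := multiples T hk n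
  have h2 : (n • M + (k + j + 1) • T.s2s2) + (T.cp + T.cpbar) =
      (n * q + k + j + 2) • T.cp + (n * q + k + j + 2 + 16 * (n * p)) • T.cpbar := by
    have e0 : ∀ i : ℕ, i • T.s2s2 + (T.cp + T.cpbar) =
        i • T.cp + i • T.cpbar + (T.cp + T.cpbar) := by
      intro i
      rw [absorb, succ_nsmul, nsmul_add]
    calc (n • M + (k + j + 1) • T.s2s2) + (T.cp + T.cpbar)
        = n • M + k • T.s2s2 + ((j + 1) • T.s2s2 + (T.cp + T.cpbar)) := by
          rw [add_assoc k, add_nsmul]; abel
      _ = (n • M + (k • T.s2s2 + (T.cp + T.cpbar))) + ((j + 1) • T.cp + (j + 1) • T.cpbar) := by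
          rw [e0]; abel
      _ = ((n * q + k + 1) • T.cp + (n * (q + 16 * p) + k + 1) • T.cpbar) +
          ((j + 1) • T.cp + (j + 1) • T.cpbar) := by rw [h1]
      _ = _ := by
          have e1 : n * q + k + j + 2 = (n * q + k + 1) + (j + 1) := by ring
          have e2 : n * q + k + j + 2 + 16 * (n * p) = (n * (q + 16 * p) + k + 1) + (j + 1) := by
            ring
          rw [e2, e1, add_nsmul _ (n * q + k + 1), add_nsmul _ (n * (q + 16 * p) + k + 1)]
          abel
  obtain ⟨x, y, hxy, hR⟩ := T.fibre _ _ _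
    ((T.spin_add _ _).2 ⟨spin_nsmul T hM n, spin_nsmul T T.spin_s2s2 _⟩) h2
  exact T.transitive 0 _ _ x _ y _ (by omega) (by omega) hxy (isChar_std hnj)
    (isPrim_std (by omega)) hR

/-- Let `c > 2`. The following are equivalent: (1) `q ≥ c p` whenever `2p E₈ ⊕ q H` or its negative
is the form of a closed simply connected smooth 4-manifold; (2) `g ≥ c p - a + 1` whenever the class
`3 (e_1 + ⋯ + e_2p) + e_(2p+1) + ⋯ + e_a + f_1 + ⋯ + f_(a+16p)` of `a CP² # (a + 16 p) (-CP²)`
is represented by a smooth surface of genus `g` with simply connected complement; (3) for every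
`c' < c` there is a constant `C` such that `a ≥ c' p - C` whenever this class is represented by a
smooth sphere with simply connected complement. The 11/8-conjecture is the case `c = 3`. -/
theorem result (c : ℝ) (hc : 2 < c) :
    ((∀ p q : ℕ, T.Realised p q → c * p ≤ q) ↔
      ∀ g a p : ℕ, 2 * p ≤ a → T.Surface g a p → c * p + 1 ≤ a + g) ∧
    ((∀ p q : ℕ, T.Realised p q → c * p ≤ q) ↔
      ∀ c' : ℝ, c' < c → ∃ C : ℝ, ∀ a p : ℕ, 2 * p ≤ a → T.Surface 0 a p → c' * p ≤ a + C) := by
  have h12 : (∀ p q : ℕ, T.Realised p q → c * p ≤ q) →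
      ∀ g a p : ℕ, 2 * p ≤ a → T.Surface g a p → c * p + 1 ≤ a + g := by
    intro h g a p hap hS
    obtain ⟨M, hM, hb, hs⟩ := T.surgery g a (a + 16 * p) _ _ ⟨-p, by push_cast; ring⟩
      (isChar_std hap) hS
    have hpos : 1 ≤ a + g := by omega
    have h1 : T.Realised p (a + g - 1) := by
      refine ⟨M, hM, ?_, by omega⟩
      rw [hs]
      push_cast
      rw [show (a : ℤ) - (a + 16 * p) = -(16 * p) by ring, abs_neg, abs_of_nonneg (by positivity)]
    have h2 := h p _ h1
    rw [Nat.cast_sub hpos] at h2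
    push_cast at h2
    linarith
  have h23 : (∀ g a p : ℕ, 2 * p ≤ a → T.Surface g a p → c * p + 1 ≤ a + g) →
      ∀ c' : ℝ, c' < c → ∃ C : ℝ, ∀ a p : ℕ, 2 * p ≤ a → T.Surface 0 a p → c' * p ≤ a + C := by
    intro h c' hc'
    refine ⟨0, fun a p hap hS => ?_⟩
    have h1 := h 0 a p hap hS
    have h2 : c' * p ≤ c * p := mul_le_mul_of_nonneg_right hc'.le (Nat.cast_nonneg p)
    push_cast at h1
    linarith
  have h31 : ∀ c' : ℝ, 2 < c' →
      (∃ C : ℝ, ∀ a p : ℕ, 2 * p ≤ a → T.Surface 0 a p → c' * p ≤ a + C) →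
      ∀ p q : ℕ, T.Realised p q → c' * p ≤ q := by
    rintro c' hc' ⟨C, hC⟩ p q hpq
    obtain ⟨k, hk⟩ := spheres T hpq
    -- a bound for all `q' ≥ q`, `q' ≥ 2p`
    have key : ∀ q' : ℕ, q ≤ q' → 2 * p ≤ q' → c' * p ≤ q' := by
      intro q' h1 h2
      by_contra hcon
      push Not at hcon
      obtain ⟨n, hn⟩ := exists_nat_gt ((k + 2 + C) / (c' * p - q'))
      have hd : 0 < c' * p - q' := by linarith
      rw [div_lt_iff₀ hd] at hn
      have e : n * q + k + n * (q' - q) + 2 = n * q' + k + 2 := by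
        have : n * q' = n * q + n * (q' - q) := by
          rw [← mul_add, Nat.add_sub_cancel' h1]
        omega
      have hle : 2 * (n * p) ≤ n * q' := by
        have := Nat.mul_le_mul_left n h2
        calc 2 * (n * p) = n * (2 * p) := by ring
          _ ≤ n * q' := this
      have h3 := hk n (n * (q' - q)) (by omega)
      rw [e] at h3
      have h4 := hC _ _ (by omega) h3
      push_cast at h4
      nlinarith
    rcases le_total (2 * p) q with h1 | h1
    · exact key q le_rfl h1
    · rcases Nat.eq_zero_or_pos p with rfl | hp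
      · simp
      · have h2 := key (2 * p) h1 le_rfl
        have hp' : (0 : ℝ) < p := by exact_mod_cast hp
        push_cast at h2
        nlinarith
  have h3 : (∀ c' : ℝ, c' < c → ∃ C : ℝ, ∀ a p : ℕ, 2 * p ≤ a → T.Surface 0 a p → c' * p ≤ a + C) →
      ∀ p q : ℕ, T.Realised p q → c * p ≤ q := by
    intro h p q hpq
    rcases Nat.eq_zero_or_pos p with rfl | hp
    · simp
    have hp' : (0 : ℝ) < p := by exact_mod_cast hp
    by_contra hcon
    push Not at hcon
    have hlt : (q : ℝ) / p < c := by rwa [div_lt_iff₀ hp']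
    obtain ⟨c', h1, h2⟩ := exists_between (max_lt hlt hc)
    have h4 := h31 c' (lt_of_le_of_lt (le_max_right _ _) h1) (h c' h2) p q hpq
    have h5 : (q : ℝ) / p < c' := lt_of_le_of_lt (le_max_left _ _) h1
    rw [div_lt_iff₀ hp'] at h5
    linarith
  exact ⟨⟨h12, fun h => h3 (h23 h)⟩, ⟨fun h => h23 (h12 h), h3⟩⟩

end Pool.Agent.Results.MP_cb9bff_gt.CharacteristicSurfaces
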