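import Pool.Agent.TH116.GT.Geography

/-!
# The shape of the set of intersection forms of smooth simply connected 4-manifolds

All odd forms which are indefinite or diagonal are realised, and by Donaldson no other odd forms and
no definite even forms except `0` are realised. By Rokhlin the remaining forms are
`± (2p E₈) ⊕ q H`, and a change of orientation reduces to one sign. So Q1 asks for the set `E` of all
pairs `(p, q)` of natural numbers such that `2p E₈ ⊕ q H` is realised. It is a submonoid of `ℕ × ℕ`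
(connected sums) which contains `(0, 1)` (`S² × S²`), `(1, 3)` (the K3 surface), and `q ≥ 2p + 1`
holds for all `(p, q) ∈ E` with `p ≥ 1` (Furuta). These properties are `IsSpinGeography E`.

Theorem. There is a real number `2 ≤ α ≤ 3` such that
* `q ≥ α p` for all `(p, q) ∈ E`;
* for every `c > α`, all pairs `(p, q)` with `q ≥ c p` and `p` sufficiently large are in `E`;
* `α = 3` if and only if the 11/8-conjecture `E = {q ≥ 3p}` holds;
* the monoid `E` is finitely generated if and only if the slope `α` is attained by an element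
  `(p, q)` of `E` with `p ≥ 1`; in this case `α` is a rational number with `2 < α`, and there are a
  number `N ≥ 1` and a number `M` such that for all large `p`, `(p + N, q + M) ∈ E` if and only if
  `(p, q) ∈ E`.
-/

set_option autoImplicit false

namespace Pool.Agent.Results.MP_cb9bff_gt.FinitelyGeneratedForms

open Pool.Agent.TH116.GT

/-- The set of slopes of elements of `E`. -/
def slopes (E : AddSubmonoid (ℕ × ℕ)) : Set ℝ :=
  {x | ∃ p q : ℕ, 1 ≤ p ∧ (p, q) ∈ E ∧ x = q / p}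

variable {E : AddSubmonoid (ℕ × ℕ)}

lemma slopes_bddBelow (h : IsSpinGeography E) : ∀ x ∈ slopes E, (2 : ℝ) ≤ x := by
  rintro x ⟨p, q, hp, hpq, rfl⟩
  have h1 := h.furuta p q hp hpq
  have hp' : (0 : ℝ) < p := by exact_mod_cast hp
  rw [le_div_iff₀ hp']
  have : ((2 * p + 1 : ℕ) : ℝ) ≤ q := by exact_mod_cast h1
  push_cast at this
  linarith

lemma slopes_nonempty (h : IsSpinGeography E) : (3 : ℝ) ∈ slopes E :=
  ⟨1, 3, le_rfl, h.k3, by norm_num⟩

/-- Let `E` be the set of pairs `(p, q)` such that `2p E₈ ⊕ q H` is realised, or any submonoid of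
`ℕ × ℕ` with the properties `IsSpinGeography`. There is a number `α` between `2` and `3` with
`q ≥ α p` on `E`, such that for each `c > α` all `(p, q)` with `q ≥ c p`, `p` large, are in `E`;
`α = 3` iff `q ≥ 3p` on `E`; `E` is finitely generated iff the slope `α` is attained, and then
`2 < α`, and `E` is periodic in `p` up to a shift. -/
theorem result (h : IsSpinGeography E) :
    ∃ α : ℝ, 2 ≤ α ∧ α ≤ 3 ∧ (∀ p q : ℕ, (p, q) ∈ E → α * p ≤ q) ∧
      (∀ c : ℝ, α < c → ∃ P : ℕ, ∀ p q : ℕ, P ≤ p → c * p ≤ q → (p, q) ∈ E) ∧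
      (α = 3 ↔ ∀ p q : ℕ, (p, q) ∈ E → 3 * p ≤ q) ∧
      (E.FG ↔ ∃ p q : ℕ, 1 ≤ p ∧ (p, q) ∈ E ∧ α * p = q) ∧
      (E.FG → 2 < α ∧ ∃ N M P : ℕ, 1 ≤ N ∧
        ∀ p q : ℕ, P ≤ p → ((p + N, q + M) ∈ E ↔ (p, q) ∈ E)) := by
  set α : ℝ := sInf (slopes E) with hα
  have hbdd : BddBelow (slopes E) := ⟨2, slopes_bddBelow h⟩
  have hne : (slopes E).Nonempty := ⟨3, slopes_nonempty h⟩
  have hα2 : 2 ≤ α := le_csInf hne (slopes_bddBelow h)
  have hα3 : α ≤ 3 := csInf_le hbdd (slopes_nonempty h)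
  have hlow : ∀ p q : ℕ, (p, q) ∈ E → α * p ≤ q := by
    intro p q hpq
    rcases Nat.eq_zero_or_pos p with rfl | hp
    · simp
    · have hp' : (0 : ℝ) < p := by exact_mod_cast hp
      rw [← le_div_iff₀ hp']
      exact csInf_le hbdd ⟨p, q, hp, hpq, rfl⟩
  have hdense : ∀ c : ℝ, α < c → ∃ P : ℕ, ∀ p q : ℕ, P ≤ p → c * p ≤ q → (p, q) ∈ E := by
    intro c hc
    obtain ⟨x, ⟨p₀, q₀, hp₀, hpq₀, rfl⟩, hx⟩ := exists_lt_of_csInf_lt hne hc
    have hp₀' : (0 : ℝ) < p₀ := by exact_mod_cast hp₀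
    have hpos : 0 < c * p₀ - q₀ := by
      rw [div_lt_iff₀ hp₀'] at hx
      linarith
    obtain ⟨K, hK⟩ := exists_nat_gt (3 * p₀ / (c * p₀ - q₀) : ℝ)
    refine ⟨(K + 1) * p₀, fun p q hp hq => ?_⟩
    set r := p % p₀ with hr
    set k := p / p₀ with hk
    have hdiv : p = r + k * p₀ := by rw [hr, hk, Nat.mod_add_div']
    have hkK : K + 1 ≤ k := by
      rw [hk]
      exact (Nat.le_div_iff_mul_le hp₀).2 hp
    have hrlt : r < p₀ := Nat.mod_lt _ hp₀
    have hmem : (p, 3 * r + k * q₀) ∈ E := by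
      have h1 := E.add_mem (three_mem h.k3 r) (E.nsmul_mem hpq₀ k)
      have e : ((r, 3 * r) : ℕ × ℕ) + k • ((p₀, q₀) : ℕ × ℕ) = (p, 3 * r + k * q₀) := by
        rw [hdiv]
        ext <;> simp
      rwa [e] at h1
    refine mem_of_le h.hyperbolic hmem ?_
    have hc3 : 0 ≤ c := by linarith
    have h2 : (3 : ℝ) * p₀ < k * (c * p₀ - q₀) := by
      rw [div_lt_iff₀ hpos] at hK
      have : (K : ℝ) ≤ k := by exact_mod_cast (by omega : K ≤ k)
      nlinarith
    have h3 : ((3 * r + k * q₀ : ℕ) : ℝ) ≤ q := by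
      refine le_trans ?_ hq
      have hpr : (p : ℝ) = r + k * p₀ := by exact_mod_cast hdiv
      have hr' : (r : ℝ) ≤ p₀ := by exact_mod_cast hrlt.le
      have hr0 : (0 : ℝ) ≤ r := by positivity
      rw [hpr]
      push_cast
      nlinarith
    exact_mod_cast h3
  have hattain : (∃ p q : ℕ, 1 ≤ p ∧ (p, q) ∈ E ∧ α * p = q) ↔
      ∃ p₀ q₀ : ℕ, 1 ≤ p₀ ∧ (p₀, q₀) ∈ E ∧ ∀ p q : ℕ, (p, q) ∈ E → q₀ * p ≤ q * p₀ := by
    constructor
    · rintro ⟨p₀, q₀, hp₀, hpq₀, he⟩
      refine ⟨p₀, q₀, hp₀, hpq₀, fun p q hpq => ?_⟩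
      have h1 := hlow p q hpq
      have h2 : ((q₀ * p : ℕ) : ℝ) ≤ ((q * p₀ : ℕ) : ℝ) := by
        push_cast
        rw [← he]
        have : (0 : ℝ) ≤ p₀ := by positivity
        nlinarith
      exact_mod_cast h2
    · rintro ⟨p₀, q₀, hp₀, hpq₀, hm⟩
      refine ⟨p₀, q₀, hp₀, hpq₀, ?_⟩
      have hp₀' : (0 : ℝ) < p₀ := by exact_mod_cast hp₀
      have h1 : (q₀ : ℝ) / p₀ ≤ α := by
        refine le_csInf hne ?_
        rintro x ⟨p, q, hp, hpq, rfl⟩
        have hp' : (0 : ℝ) < p := by exact_mod_cast hp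
        rw [div_le_div_iff₀ hp₀' hp']
        exact_mod_cast hm p q hpq
      have h2 : α ≤ (q₀ : ℝ) / p₀ := csInf_le hbdd ⟨p₀, q₀, hp₀, hpq₀, rfl⟩
      rw [le_antisymm h2 h1]
      field_simp
  have hfg : E.FG ↔ ∃ p q : ℕ, 1 ≤ p ∧ (p, q) ∈ E ∧ α * p = q := by
    rw [hattain]
    constructor
    · intro hE
      exact attained_of_fg h.k3 hE
    · rintro ⟨p₀, q₀, hp₀, hpq₀, hm⟩
      exact fg_of_attained h.hyperbolic h.k3 hp₀ hpq₀ hm
  refine ⟨α, hα2, hα3, hlow, hdense, ⟨?_, ?_⟩, hfg, ?_⟩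
  · intro he p q hpq
    have h1 := hlow p q hpq
    rw [he] at h1
    exact_mod_cast h1
  · intro h3
    refine le_antisymm hα3 (le_csInf hne ?_)
    rintro x ⟨p, q, hp, hpq, rfl⟩
    have hp' : (0 : ℝ) < p := by exact_mod_cast hp
    rw [le_div_iff₀ hp']
    exact_mod_cast h3 p q hpq
  · intro hE
    constructor
    · obtain ⟨p, q, hp, hpq, he⟩ := hfg.1 hE
      have h1 := h.furuta p q hp hpq
      have h2 : ((2 * p + 1 : ℕ) : ℝ) ≤ q := by exact_mod_cast h1
      have hp' : (0 : ℝ) < p := by exact_mod_cast hp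
      push_cast at h2
      rw [← he] at h2
      by_contra h3
      rw [not_lt] at h3
      nlinarith
    · obtain ⟨p₀, q₀, hp₀, hpq₀, hm⟩ := attained_of_fg h.k3 hE
      obtain ⟨P, hP⟩ := periodic_of_attained h.hyperbolic h.k3 hp₀ hpq₀ hm
      exact ⟨p₀, q₀, P, hp₀, hP⟩

end Pool.Agent.Results.MP_cb9bff_gt.FinitelyGeneratedForms
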