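import Pool.Agent.TH895.CS.Rules

/-!
# Uniform stabilisation of connected sums of finitely many 4-manifolds

By Wall, two closed simply connected smooth 4-manifolds with isometric intersection forms become
diffeomorphic after connected sum with `k` copies of `S² × S²`, where `k` depends on the two
manifolds; whether one copy is always enough is not known. Let `M_1, ..., M_r` be closed simply
connected smooth 4-manifolds. We show that one number `K` works for all (infinitely many) pairs of
connected sums of copies of the `M_j`.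
-/

set_option autoImplicit false

namespace Pool.Agent.Results.MP_cb9bff_gt.UniformStabilisation

open Pool.Agent.TH895.CS

/-- The closed connected simply connected oriented smooth 4-manifolds up to diffeomorphism, with
connected sum, and the standard facts on them which are used. -/
structure FourManifolds where
  /-- diffeomorphism classes -/
  Mfd : Type
  /-- connected sum; the neutral element is the 4-sphere -/
  [acm : AddCommMonoid Mfd]
  /-- second Betti number -/
  b2 : Mfd →+ ℕ
  /-- signature -/
  sign : Mfd →+ ℤ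
  /-- the intersection form is even -/
  Spin : Mfd → Prop
  /-- the product of two 2-spheres -/
  s2s2 : Mfd
  spin_zero : Spin 0
  spin_s2s2 : Spin s2s2
  spin_add : ∀ M N, Spin (M + N) ↔ Spin M ∧ Spin N
  /-- Wall: manifolds with isomorphic forms become diffeomorphic after connected sum with copies of
  `S² × S²` (the form is determined by rank, signature and parity: Serre, Donaldson) -/
  wall : ∀ M N, b2 M = b2 N → sign M = sign N → (Spin M ↔ Spin N) →
    ∃ k : ℕ, M + k • s2s2 = N + k • s2s2

attribute [instance] FourManifolds.acm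

/-- The intersection forms are isometric: they have the same rank, signature and parity. -/
def FourManifolds.SameForm (T : FourManifolds) (M N : T.Mfd) : Prop :=
  T.b2 M = T.b2 N ∧ T.sign M = T.sign N ∧ (T.Spin M ↔ T.Spin N)

/-- The connected sum of `x 0` copies of `m 0`, `x 1` copies of `m 1`, and so on. -/
def FourManifolds.sum (T : FourManifolds) {r : ℕ} (m : Fin r → T.Mfd) (x : Fin r → ℕ) : T.Mfd :=
  ∑ i, x i • m i

variable (T : FourManifolds)

lemma sum_add {r : ℕ} (m : Fin r → T.Mfd) (x y : Fin r → ℕ) :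
    T.sum m (x + y) = T.sum m x + T.sum m y := by
  simp only [FourManifolds.sum, Pi.add_apply, add_nsmul, Finset.sum_add_distrib]

lemma spin_nsmul (k : ℕ) {M : T.Mfd} (h : T.Spin M) : T.Spin (k • M) := by
  induction k with
  | zero => rw [zero_smul]; exact T.spin_zero
  | succ k ih => rw [succ_nsmul]; exact (T.spin_add _ _).2 ⟨ih, h⟩

/-- Connected sums with isometric forms. -/
def formCon {r : ℕ} (m : Fin r → T.Mfd) : AddCon (Fin r → ℕ) where
  r x y := T.SameForm (T.sum m x) (T.sum m y)
  iseqv := ⟨fun _ => ⟨rfl, rfl, Iff.rfl⟩, fun h => ⟨h.1.symm, h.2.1.symm, h.2.2.symm⟩,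
    fun h1 h2 => ⟨h1.1.trans h2.1, h1.2.1.trans h2.2.1, h1.2.2.trans h2.2.2⟩⟩
  add' := fun h1 h2 => by
    rw [sum_add, sum_add]
    refine ⟨?_, ?_, ?_⟩
    · rw [map_add, map_add, h1.1, h2.1]
    · rw [map_add, map_add, h1.2.1, h2.2.1]
    · rw [T.spin_add, T.spin_add, h1.2.2, h2.2.2]

lemma sameForm_of_eq {M N P : T.Mfd} (h : M + P = N + P) (hP : T.Spin P) : T.SameForm M N := by
  refine ⟨?_, ?_, ?_⟩
  · have := congrArg T.b2 h
    rw [map_add, map_add] at this
    exact add_right_cancel this
  · have := congrArg T.sign h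
    rw [map_add, map_add] at this
    exact add_right_cancel this
  · have h1 : T.Spin (M + P) ↔ T.Spin (N + P) := by rw [h]
    rw [T.spin_add, T.spin_add] at h1
    exact ⟨fun hM => (h1.1 ⟨hM, hP⟩).1, fun hN => (h1.2 ⟨hN, hP⟩).1⟩

/-- Let `M_1, ..., M_r` be closed simply connected oriented smooth 4-manifolds. There is a number `K`
such that for all `k ≥ K` and all connected sums `N`, `N'` of copies of the `M_j`: `N # k (S² × S²)`
and `N' # k (S² × S²)` are diffeomorphic if and only if `N` and `N'` have isometric intersection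
forms. -/
theorem result {r : ℕ} (m : Fin r → T.Mfd) :
    ∃ K : ℕ, ∀ k ≥ K, ∀ x y : Fin r → ℕ,
      (T.sum m x + k • T.s2s2 = T.sum m y + k • T.s2s2 ↔ T.SameForm (T.sum m x) (T.sum m y)) := by
  classical
  obtain ⟨R, h1, -, h3, h4⟩ := rules (formCon T m)
  have hw : ∀ p : (Fin r → ℕ) × (Fin r → ℕ), ∃ k : ℕ, p ∈ R →
      T.sum m p.1 + k • T.s2s2 = T.sum m p.2 + k • T.s2s2 := by
    intro p
    by_cases hp : p ∈ R
    · obtain ⟨k, hk⟩ := T.wall _ _ (h1 p hp).1 (h1 p hp).2.1 (h1 p hp).2.2
      exact ⟨k, fun _ => hk⟩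
    · exact ⟨0, fun h => absurd h hp⟩
  choose κ hκ using hw
  refine ⟨R.sup κ, fun k hk x y => ⟨fun h => sameForm_of_eq T h (spin_nsmul T k T.spin_s2s2), ?_⟩⟩
  have hstep : ∀ u v, Step R u v →
      T.sum m u + k • T.s2s2 = T.sum m v + k • T.s2s2 := by
    rintro u v ⟨p, hp, z, rfl, rfl⟩
    have hle : κ p ≤ k := (Finset.le_sup hp).trans hk
    obtain ⟨j, rfl⟩ := Nat.exists_eq_add_of_le hle
    calc T.sum m (p.1 + z) + (κ p + j) • T.s2s2
        = (T.sum m p.1 + κ p • T.s2s2) + (T.sum m z + j • T.s2s2) := by
          rw [sum_add, add_nsmul]; abel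
      _ = (T.sum m p.2 + κ p • T.s2s2) + (T.sum m z + j • T.s2s2) := by rw [hκ p hp]
      _ = T.sum m (p.2 + z) + (κ p + j) • T.s2s2 := by rw [sum_add, add_nsmul]; abel
  have hchain : ∀ a b, Relation.ReflTransGen (Step R) a b →
      T.sum m a + k • T.s2s2 = T.sum m b + k • T.s2s2 := by
    intro a b h
    induction h with
    | refl => rfl
    | tail _ h ih => exact ih.trans (hstep _ _ h)
  intro h
  obtain ⟨u, hu⟩ := h3 x
  obtain ⟨v, hv⟩ := h3 y
  have huv : u = v := (h4 x y u v hu hv).1 h
  rw [hchain x u hu.1, hchain y v hv.1, huv]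

end Pool.Agent.Results.MP_cb9bff_gt.UniformStabilisation
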